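import Mathlib
import Pool.Agent.H.MP_2a01b0_gt.A

set_option autoImplicit false

namespace Pool.Agent.Results.MP_2a01b0_gt.CH

open Set Cardinal Pool.Agent.H.MP_9c4169_gt Pool.Agent.H.MP_2a01b0_gt

theorem result (ch : continuum = (aleph 1 : Cardinal.{0})) : ∃ Y : Set (ℕ → ℕ),
    Y.Infinite ∧ Star Y ∧ ¬ Sfin (Cov (Op Y)) (Cov (Op Y)) :=
  key ch

end Pool.Agent.Results.MP_2a01b0_gt.CH
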